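import Mathlib

set_option autoImplicit false

open scoped Classical

namespace Pool.Agent.R272.Apep

/-- Terms: a root and `mk a b ξ` with `ξ` a real label. -/
inductive Tm where
  | root : Tm
  | mk : Tm → Tm → ℝ → Tm

namespace Tm

/-- height -/
noncomputable def h : Tm → ℕ
  | root => 0
  | mk a b _ => max (h a) (h b) + 1

/-- The valid nodes on the left spine (first component) and right spine (second component). -/
noncomputable def V : Tm → Finset Tm × Finset Tm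
  | root => (∅, ∅)
  | mk a b ξ =>
    (if Disjoint (V a).1 (V b).2 then insert (mk a b ξ) (V a).1 else (V a).1,
     if Disjoint (V a).1 (V b).2 then insert (mk a b ξ) (V b).2 else (V b).2)

/-- valid nodes on the left spine -/
noncomputable def VA (t : Tm) : Finset Tm := (V t).1

/-- valid nodes on the right spine -/
noncomputable def VB (t : Tm) : Finset Tm := (V t).2

theorem VA_root : VA root = ∅ := rfl
theorem VB_root : VB root = ∅ := rfl

theorem VA_mk (a b : Tm) (ξ : ℝ) : VA (mk a b ξ) =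
    if Disjoint (VA a) (VB b) then insert (mk a b ξ) (VA a) else VA a := rfl

theorem VB_mk (a b : Tm) (ξ : ℝ) : VB (mk a b ξ) =
    if Disjoint (VA a) (VB b) then insert (mk a b ξ) (VB b) else VB b := rfl

theorem mem_VA_mk {a b : Tm} {ξ : ℝ} {κ : Tm} (hκ : κ ∈ VA (mk a b ξ)) :
    κ ∈ VA a ∨ (κ = mk a b ξ ∧ Disjoint (VA a) (VB b)) := by
  rw [VA_mk] at hκ
  split_ifs at hκ with hd
  · rcases Finset.mem_insert.mp hκ with h1 | h1
    · exact Or.inr ⟨h1, hd⟩
    · exact Or.inl h1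
  · exact Or.inl hκ

theorem mem_VB_mk {a b : Tm} {ξ : ℝ} {κ : Tm} (hκ : κ ∈ VB (mk a b ξ)) :
    κ ∈ VB b ∨ (κ = mk a b ξ ∧ Disjoint (VA a) (VB b)) := by
  rw [VB_mk] at hκ
  split_ifs at hκ with hd
  · rcases Finset.mem_insert.mp hκ with h1 | h1
    · exact Or.inr ⟨h1, hd⟩
    · exact Or.inl h1
  · exact Or.inl hκ

theorem h_mk (a b : Tm) (ξ : ℝ) : h (mk a b ξ) = max (h a) (h b) + 1 := rfl

theorem h_le_VA (s κ : Tm) (hκ : κ ∈ VA s) : 1 ≤ h κ ∧ h κ ≤ h s := by
  induction s with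
  | root => simp [VA_root] at hκ
  | mk a b ξ iha _ =>
    rcases mem_VA_mk hκ with h1 | ⟨h1, _⟩
    · have := iha h1
      have := h_mk a b ξ
      omega
    · rw [h1, h_mk]; omega

theorem h_le_VB (s κ : Tm) (hκ : κ ∈ VB s) : 1 ≤ h κ ∧ h κ ≤ h s := by
  induction s with
  | root => simp [VB_root] at hκ
  | mk a b ξ _ ihb =>
    rcases mem_VB_mk hκ with h1 | ⟨h1, _⟩
    · have := ihb h1
      have := h_mk a b ξ
      omega
    · rw [h1, h_mk]; omega

theorem inj_VA (s κ κ' : Tm) (hκ : κ ∈ VA s) (hκ' : κ' ∈ VA s) (hh : h κ = h κ') : κ = κ' := by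
  induction s with
  | root => simp [VA_root] at hκ
  | mk a b ξ iha _ =>
    have hm := h_mk a b ξ
    rcases mem_VA_mk hκ with h1 | ⟨h1, _⟩ <;> rcases mem_VA_mk hκ' with h2 | ⟨h2, _⟩
    · exact iha h1 h2
    · have := h_le_VA a κ h1
      rw [h2] at hh
      omega
    · have := h_le_VA a κ' h2
      rw [h1] at hh
      omega
    · rw [h1, h2]

theorem inj_VB (s κ κ' : Tm) (hκ : κ ∈ VB s) (hκ' : κ' ∈ VB s) (hh : h κ = h κ') : κ = κ' := by
  induction s with
  | root => simp [VB_root] at hκ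
  | mk a b ξ _ ihb =>
    have hm := h_mk a b ξ
    rcases mem_VB_mk hκ with h1 | ⟨h1, _⟩ <;> rcases mem_VB_mk hκ' with h2 | ⟨h2, _⟩
    · exact ihb h1 h2
    · have := h_le_VB b κ h1
      rw [h2] at hh
      omega
    · have := h_le_VB b κ' h2
      rw [h1] at hh
      omega
    · rw [h1, h2]

theorem trunc_VA (s a b : Tm) (ξ : ℝ) (hm : mk a b ξ ∈ VA s) :
    Disjoint (VA a) (VB b) ∧ ∀ κ ∈ VA s, h κ < h (mk a b ξ) → κ ∈ VA a := by
  induction s with
  | root => simp [VA_root] at hm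
  | mk a' b' ξ' iha _ =>
    rcases mem_VA_mk hm with h1 | ⟨h1, h1d⟩
    · obtain ⟨hd, ht⟩ := iha h1
      refine ⟨hd, fun κ hκ hlt => ?_⟩
      rcases mem_VA_mk hκ with h2 | ⟨h2, _⟩
      · exact ht κ h2 hlt
      · have := h_le_VA a' _ h1
        rw [h2, h_mk a' b' ξ'] at hlt
        omega
    · injection h1 with e1 e2 e3
      subst e1 e2 e3
      refine ⟨h1d, fun κ hκ hlt => ?_⟩
      rcases mem_VA_mk hκ with h2 | ⟨h2, _⟩
      · exact h2
      · rw [h2] at hlt; omega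

theorem trunc_VB (s a b : Tm) (ξ : ℝ) (hm : mk a b ξ ∈ VB s) :
    Disjoint (VA a) (VB b) ∧ ∀ κ ∈ VB s, h κ < h (mk a b ξ) → κ ∈ VB b := by
  induction s with
  | root => simp [VB_root] at hm
  | mk a' b' ξ' _ ihb =>
    rcases mem_VB_mk hm with h1 | ⟨h1, h1d⟩
    · obtain ⟨hd, ht⟩ := ihb h1
      refine ⟨hd, fun κ hκ hlt => ?_⟩
      rcases mem_VB_mk hκ with h2 | ⟨h2, _⟩
      · exact ht κ h2 hlt
      · have := h_le_VB b' _ h1
        rw [h2, h_mk a' b' ξ'] at hlt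
        omega
    · injection h1 with e1 e2 e3
      subst e1 e2 e3
      refine ⟨h1d, fun κ hκ hlt => ?_⟩
      rcases mem_VB_mk hκ with h2 | ⟨h2, _⟩
      · exact h2
      · rw [h2] at hlt; omega

theorem inter_unique_aux (s t κ κ' : Tm) (h1 : κ ∈ VA s) (h2 : κ ∈ VB t) (h3 : κ' ∈ VA s)
    (h4 : κ' ∈ VB t) : ¬ h κ < h κ' := by
  intro hlt
  cases κ' with
  | root => exact absurd (h_le_VA s root h3).1 (by simp [h])
  | mk a b ξ =>
    obtain ⟨hd, ht⟩ := trunc_VA s a b ξ h3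
    obtain ⟨_, ht'⟩ := trunc_VB t a b ξ h4
    exact Finset.disjoint_left.mp hd (ht κ h1 hlt) (ht' κ h2 hlt)

/-- a left spine and a right spine meet in at most one valid node -/
theorem inter_unique (s t κ κ' : Tm) (h1 : κ ∈ VA s) (h2 : κ ∈ VB t) (h3 : κ' ∈ VA s)
    (h4 : κ' ∈ VB t) : κ = κ' := by
  apply inj_VA s κ κ' h1 h3
  have a1 := inter_unique_aux s t κ κ' h1 h2 h3 h4
  have a2 := inter_unique_aux s t κ' κ h3 h4 h1 h2
  omega

theorem up_VA (s ι κ : Tm) (hι : ι ∈ VA s) (hκ : κ ∈ VA s) (hle : h ι ≤ h κ) : ι ∈ VA κ := by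
  induction s with
  | root => simp [VA_root] at hι
  | mk a b ξ iha _ =>
    rcases mem_VA_mk hκ with h1 | ⟨h1, h1d⟩
    · rcases mem_VA_mk hι with h2 | ⟨h2, _⟩
      · exact iha h2 h1
      · have := h_le_VA a κ h1
        rw [h2, h_mk] at hle
        omega
    · rw [h1]; exact hι

theorem up_VB (s ι κ : Tm) (hι : ι ∈ VB s) (hκ : κ ∈ VB s) (hle : h ι ≤ h κ) : ι ∈ VB κ := by
  induction s with
  | root => simp [VB_root] at hι
  | mk a b ξ _ ihb =>
    rcases mem_VB_mk hκ with h1 | ⟨h1, h1d⟩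
    · rcases mem_VB_mk hι with h2 | ⟨h2, _⟩
      · exact ihb h2 h1
      · have := h_le_VB b κ h1
        rw [h2, h_mk] at hle
        omega
    · rw [h1]; exact hι

theorem self_notMem_VA (a b : Tm) (ξ : ℝ) : mk a b ξ ∉ VA a := by
  intro hm
  have := h_le_VA a _ hm
  rw [h_mk] at this
  omega

theorem self_notMem_VB (a b : Tm) (ξ : ℝ) : mk a b ξ ∉ VB b := by
  intro hm
  have := h_le_VB b _ hm
  rw [h_mk] at this
  omega

theorem mk_inj {a b : Tm} {ξ ξ' : ℝ} (he : mk a b ξ = mk a b ξ') : ξ = ξ' := by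
  injection he

end Tm

end Pool.Agent.R272.Apep
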