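import Pool.Agent.R272.Apep.Tens
import Pool.Agent.R272.Apep.Tm

set_option autoImplicit false
set_option maxSynthPendingDepth 3

open scoped Classical Topology

namespace Pool.Agent.R272.Apep

open Tm

section One

variable {E : Type*} [NormedAddCommGroup E] [NormedSpace ℝ E]

theorem hull_le {S : Set E} (ψ : E →L[ℝ] ℝ) (m : ℝ) (hS : ∀ x ∈ S, ψ x ≤ m) :
    ∀ x ∈ closedConvexHull ℝ S, ψ x ≤ m := by
  have h1 : Convex ℝ {x | ψ x ≤ m} := convex_halfSpace_le ψ.toLinearMap.isLinear m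
  have h2 : IsClosed {x | ψ x ≤ m} := isClosed_le ψ.continuous continuous_const
  exact fun x hx => closedConvexHull_min hS h1 h2 hx

theorem weak_nhd {U : Set (WeakSpace ℝ E)} (hU : IsOpen U) {x₀ : E}
    (hx : toWeakSpace ℝ E x₀ ∈ U) : ∃ (I : Finset (E →L[ℝ] ℝ)) (ε : ℝ), 0 < ε ∧
      ∀ x : E, (∀ f ∈ I, |f x - f x₀| < ε) → toWeakSpace ℝ E x ∈ U := by
  obtain ⟨V, hV, rfl⟩ := isOpen_induced_iff.mp hU
  have hx' : (fun f : E →L[ℝ] ℝ => f x₀) ∈ V := hx
  obtain ⟨I, u, hu, hsub⟩ := isOpen_pi_iff.mp hV _ hx'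
  have hev : ∀ᶠ ε in 𝓝[>] (0 : ℝ), ∀ f ∈ I, Metric.ball (f x₀) ε ⊆ u f := by
    rw [Filter.eventually_all_finset]
    intro f hf
    obtain ⟨δ, hδ, hb⟩ := Metric.isOpen_iff.mp (hu f hf).1 _ (hu f hf).2
    filter_upwards [Ioo_mem_nhdsGT hδ] with ε hε
    exact (Metric.ball_subset_ball hε.2.le).trans hb
  obtain ⟨ε, hε1, hε2⟩ := (hev.and self_mem_nhdsWithin).exists
  refine ⟨I, ε, hε2, fun x hx' => ?_⟩
  have hgoal : (fun f : E →L[ℝ] ℝ => f x) ∈ V := ?_
  · exact hgoal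
  apply hsub
  intro f hf
  apply hε1 f hf
  rw [Metric.mem_ball, Real.dist_eq]
  exact hx' f hf

/-- generators -/
def Gen (e : Tm → E) (Sp : Tm → Finset Tm) : Set E :=
  {x | ∃ (σ : ℝ) (s : Tm) (ε : Tm → ℝ), (σ = 1 ∨ σ = -1) ∧ (∀ κ, ε κ = 1 ∨ ε κ = -1) ∧
    x = σ • (e root + ∑ ι ∈ Sp s, ε ι • e ι)}

theorem coord_sum {e : Tm → E} {p : Tm → (E →L[ℝ] ℝ)}
    (hp : ∀ ι κ, p ι (e κ) = if κ = ι then 1 else 0) (A : Finset Tm) (ε : Tm → ℝ) (κ : Tm) :
    p κ (∑ ι ∈ A, ε ι • e ι) = if κ ∈ A then ε κ else 0 := by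
  rw [map_sum]
  simp only [map_smul, hp, smul_eq_mul, mul_ite, mul_one, mul_zero]
  rw [Finset.sum_ite_eq']

theorem apep_root {e : Tm → E} {p : Tm → (E →L[ℝ] ℝ)}
    (hp : ∀ ι κ, p ι (e κ) = if κ = ι then 1 else 0) {Sp : Tm → Finset Tm}
    (hSp0 : Sp root = ∅) (hSp1 : ∀ s κ, κ ∈ Sp s → 1 ≤ h κ)
    (hSp2 : ∀ s ι κ, ι ∈ Sp s → κ ∈ Sp s → h ι ≤ h κ → ι ∈ Sp κ)
    (hSp3 : ∀ ξ, Sp (mk root root ξ) = {mk root root ξ})
    (hcs : ∀ f : E →L[ℝ] ℝ, {ι | f (e ι) ≠ 0}.Countable)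
    {R : Set E} (hR : ∀ x ∈ R, ∀ ι, |p ι x| ≤ 1 / 2)
    {M : ℝ} (hM : ∀ x ∈ Gen e Sp ∪ R, ‖x‖ ≤ M) :
    IsAPEP (closedConvexHull ℝ (Gen e Sp ∪ R)) (e root) := by
  have hroot : e root ∈ Gen e Sp := by
    refine ⟨1, root, fun _ => 1, Or.inl rfl, fun _ => Or.inl rfl, ?_⟩
    rw [hSp0]; simp
  refine ⟨subset_closedConvexHull (Or.inl hroot), fun U hU hxU => ?_⟩
  obtain ⟨I, δ, hδ, hIU⟩ := weak_nhd hU hxU
  -- choose a label that avoids the supports
  have hJ : (⋃ f ∈ I, {ι | f (e ι) ≠ 0}).Countable :=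
    (Finset.countable_toSet I).biUnion (fun f _ => hcs f)
  have hbad : (⋃ κ ∈ (⋃ f ∈ I, {ι | f (e ι) ≠ 0}), {ξ : ℝ | mk root root ξ ∈ Sp κ}).Countable := by
    refine hJ.biUnion (fun κ _ => ?_)
    have hfin : ((fun ξ : ℝ => mk root root ξ) ⁻¹' (Sp κ : Set Tm)).Finite :=
      (Finset.finite_toSet (Sp κ)).preimage (fun ξ _ ξ' _ hh => mk_inj hh)
    exact hfin.countable
  obtain ⟨ξ, hξ⟩ := (hbad.dense_compl ℝ).nonempty
  set ι₁ := mk root root ξ with hι₁
  have hh1 : h ι₁ = 1 := by rw [hι₁, h_mk]; simp [h]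
  have hzero : ∀ s, ι₁ ∈ Sp s → ∀ κ ∈ Sp s, ∀ f ∈ I, f (e κ) = 0 := by
    intro s hs κ hκ f hf
    have h1 : ι₁ ∈ Sp κ := hSp2 s ι₁ κ hs hκ (by rw [hh1]; exact hSp1 s κ hκ)
    by_contra hne
    apply hξ
    exact Set.mem_biUnion (Set.mem_biUnion hf hne) h1
  have hrootne : ∀ s, root ∉ Sp s := fun s hs => by
    have := hSp1 s root hs
    simp [h] at this
  have hne1 : ι₁ ≠ root := by rw [hι₁]; exact fun hh => by cases hh
  set g : E →L[ℝ] ℝ := p root + p ι₁ with hg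
  have hM0 : 0 ≤ M := (norm_nonneg _).trans (hM _ (Or.inl hroot))
  set K : ℝ := 1 + ∑ f ∈ I, 2 * ‖f‖ * M with hK
  have hKpos : 0 < K := by
    have : 0 ≤ ∑ f ∈ I, 2 * ‖f‖ * M := Finset.sum_nonneg (fun f _ => by positivity)
    linarith
  have hKf : ∀ f ∈ I, 2 * ‖f‖ * M ≤ K := by
    intro f hf
    have := Finset.single_le_sum (f := fun f : E →L[ℝ] ℝ => 2 * ‖f‖ * M)
      (fun f _ => by positivity) hf
    linarith
  -- the key estimate on the generators
  have hkey : ∀ x ∈ Gen e Sp ∪ R, g x ≤ 2 ∧ ∀ f ∈ I, |f x - f (e root)| ≤ K * (2 - g x) := by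
    intro x hx
    have hcrude : g x ≤ 1 → g x ≤ 2 ∧ ∀ f ∈ I, |f x - f (e root)| ≤ K * (2 - g x) := by
      intro hgx
      refine ⟨by linarith, fun f hf => ?_⟩
      calc |f x - f (e root)| = ‖f (x - e root)‖ := by rw [map_sub, Real.norm_eq_abs]
        _ ≤ ‖f‖ * ‖x - e root‖ := f.le_opNorm _
        _ ≤ ‖f‖ * (M + M) := by
          gcongr
          exact (norm_sub_le _ _).trans (add_le_add (hM x hx) (hM _ (Or.inl hroot)))
        _ = 2 * ‖f‖ * M := by ring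
        _ ≤ K * 1 := by rw [mul_one]; exact hKf f hf
        _ ≤ K * (2 - g x) := by
          apply mul_le_mul_of_nonneg_left _ hKpos.le
          linarith
    rcases hx with ⟨σ, s, ε, hσ, hε, rfl⟩ | hxR
    · have hgv : g (σ • (e root + ∑ ι ∈ Sp s, ε ι • e ι)) =
          σ * (1 + if ι₁ ∈ Sp s then ε ι₁ else 0) := by
        rw [hg, add_apply, map_smul, map_smul, map_add, map_add, coord_sum hp, coord_sum hp, hp, hp,
          if_pos rfl, if_neg (hrootne s), if_neg hne1.symm, smul_eq_mul, smul_eq_mul]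
        ring
      by_cases hcase : σ = 1 ∧ ι₁ ∈ Sp s ∧ ε ι₁ = 1
      · obtain ⟨h1, h2, h3⟩ := hcase
        have hg2 : g (σ • (e root + ∑ ι ∈ Sp s, ε ι • e ι)) = 2 := by
          rw [hgv, h1, if_pos h2, h3]; norm_num
        rw [hg2]
        refine ⟨le_rfl, fun f hf => ?_⟩
        have : f (σ • (e root + ∑ ι ∈ Sp s, ε ι • e ι)) = f (e root) := by
          rw [h1, one_smul, map_add, map_sum, Finset.sum_eq_zero, add_zero]
          intro κ hκ
          rw [map_smul, hzero s h2 κ hκ f hf, smul_zero]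
        rw [this]
        simp
      · apply hcrude
        rw [hgv]
        by_cases h2 : ι₁ ∈ Sp s
        · rw [if_pos h2]
          rcases hσ with h1 | h1
          · rcases hε ι₁ with h3 | h3
            · exact absurd ⟨h1, h2, h3⟩ hcase
            · rw [h1, h3]; norm_num
          · rcases hε ι₁ with h3 | h3 <;> rw [h1, h3] <;> norm_num
        · rw [if_neg h2]
          rcases hσ with h1 | h1 <;> rw [h1] <;> norm_num
    · apply hcrude
      have h1 := (abs_le.mp (hR x hxR root)).2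
      have h2 := (abs_le.mp (hR x hxR ι₁)).2
      rw [hg, add_apply]
      linarith
  -- pass to the hull
  have hle2 : ∀ x ∈ closedConvexHull ℝ (Gen e Sp ∪ R), g x ≤ 2 :=
    hull_le g 2 (fun x hx => (hkey x hx).1)
  have hest : ∀ x ∈ closedConvexHull ℝ (Gen e Sp ∪ R), ∀ f ∈ I,
      |f x - f (e root)| ≤ K * (2 - g x) := by
    intro x hx f hf
    have h1 := hull_le (f + K • g) (2 * K + f (e root)) (fun x hx => by
      have := (abs_le.mp ((hkey x hx).2 f hf)).2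
      rw [add_apply, smul_apply, smul_eq_mul]
      linarith) x hx
    have h2 := hull_le (-f + K • g) (2 * K - f (e root)) (fun x hx => by
      have := (abs_le.mp ((hkey x hx).2 f hf)).1
      rw [add_apply, smul_apply, smul_eq_mul, neg_apply]
      linarith) x hx
    rw [add_apply, smul_apply, smul_eq_mul] at h1 h2
    rw [neg_apply] at h2
    rw [abs_le]
    constructor <;> linarith
  have hx1 : e root + e ι₁ ∈ closedConvexHull ℝ (Gen e Sp ∪ R) := by
    apply subset_closedConvexHull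
    refine Or.inl ⟨1, ι₁, fun _ => 1, Or.inl rfl, fun _ => Or.inl rfl, ?_⟩
    rw [hι₁, hSp3]
    simp
  have hgx1 : g (e root + e ι₁) = 2 := by
    rw [hg, add_apply, map_add, map_add, hp, hp, hp, hp, if_pos rfl, if_pos rfl, if_neg hne1,
      if_neg hne1.symm]
    norm_num
  have hsup : sSup (g '' closedConvexHull ℝ (Gen e Sp ∪ R)) = 2 := by
    apply IsGreatest.csSup_eq
    refine ⟨⟨_, hx1, hgx1⟩, ?_⟩
    rintro _ ⟨x, hx, rfl⟩
    exact hle2 x hx
  refine ⟨g, δ / K, by positivity, ⟨e root + e ι₁, hx1, ?_⟩, ?_⟩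
  · rw [hsup, hgx1]
    have : 0 < δ / K := by positivity
    linarith
  · rintro x ⟨hxC, hxs⟩
    rw [hsup] at hxs
    apply hIU
    intro f hf
    calc |f x - f (e root)| ≤ K * (2 - g x) := hest x hxC f hf
      _ < K * (δ / K) := by
        apply mul_lt_mul_of_pos_left _ hKpos
        linarith
      _ = δ := by field_simp

end One

section Two

variable {X Y : Type*} [NormedAddCommGroup X] [NormedSpace ℝ X]
  [NormedAddCommGroup Y] [NormedSpace ℝ Y]

theorem T_sum {e : Tm → X} {e' : Tm → Y} {T : X →L[ℝ] Y →L[ℝ] ℝ}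
    (hT : ∀ ι κ, T (e ι) (e' κ) = if ι = κ then 1 else 0) (A B : Finset Tm) (ε ε' : Tm → ℝ) :
    T (∑ ι ∈ A, ε ι • e ι) (∑ κ ∈ B, ε' κ • e' κ) = ∑ ι ∈ A ∩ B, ε ι * ε' ι := by
  have h1 : T (∑ ι ∈ A, ε ι • e ι) = ∑ ι ∈ A, T (ε ι • e ι) := map_sum T _ _
  rw [h1, sum_apply]
  have : ∀ ι ∈ A, (T (ε ι • e ι)) (∑ κ ∈ B, ε' κ • e' κ) = if ι ∈ B then ε ι * ε' ι else 0 := by
    intro ι _
    rw [map_smul, smul_apply, map_sum]
    simp only [map_smul, hT, smul_eq_mul, mul_ite, mul_one, mul_zero]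
    rw [Finset.sum_ite_eq]
    split_ifs <;> ring
  rw [Finset.sum_congr rfl this, ← Finset.sum_filter, Finset.filter_mem_eq_inter]

theorem T_gen {e : Tm → X} {e' : Tm → Y} {T : X →L[ℝ] Y →L[ℝ] ℝ}
    (hT : ∀ ι κ, T (e ι) (e' κ) = if ι = κ then 1 else 0) (s t : Tm) (ε ε' : Tm → ℝ) :
    T (e root + ∑ ι ∈ VA s, ε ι • e ι) (e' root + ∑ κ ∈ VB t, ε' κ • e' κ) =
      1 + ∑ ι ∈ VA s ∩ VB t, ε ι * ε' ι := by
  have hr1 : T (e root) (∑ κ ∈ VB t, ε' κ • e' κ) = 0 := by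
    rw [map_sum]
    apply Finset.sum_eq_zero
    intro κ hκ
    rw [map_smul, hT, if_neg, smul_zero]
    intro hh
    have := (h_le_VB t κ hκ).1
    rw [← hh] at this
    simp [h] at this
  have hr2 : T (∑ ι ∈ VA s, ε ι • e ι) (e' root) = 0 := by
    rw [map_sum, sum_apply]
    apply Finset.sum_eq_zero
    intro κ hκ
    rw [map_smul, smul_apply, hT, if_neg, smul_zero]
    intro hh
    have := (h_le_VA s κ hκ).1
    rw [hh] at this
    simp [h] at this
  have h0 : T (e root + ∑ ι ∈ VA s, ε ι • e ι) = T (e root) + T (∑ ι ∈ VA s, ε ι • e ι) :=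
    map_add T _ _
  rw [h0, add_apply, map_add, map_add, hr1, hr2, hT, if_pos rfl, T_sum hT]
  ring

theorem expand (φ : ProjTensor X Y →L[ℝ] ℝ) (x0 u : X) (y0 v : Y) (η : ℝ)
    (h1 : φ (tmul u y0) = 0) (h2 : φ (tmul x0 v) = 0) :
    φ (tmul (x0 + u) (y0 + η • v)) = φ (tmul x0 y0) + η * φ (tmul u v) := by
  rw [tmul_add_left, tmul_add_right, tmul_add_right, map_add, map_add, map_add,
    tmul_smul_right, tmul_smul_right, map_smul, map_smul, h1, h2]
  simp only [smul_eq_mul]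
  ring

theorem not_apep {e : Tm → X} {p : Tm → (X →L[ℝ] ℝ)} {e' : Tm → Y} {q : Tm → (Y →L[ℝ] ℝ)}
    (hp : ∀ ι κ, p ι (e κ) = if κ = ι then 1 else 0)
    (hq : ∀ ι κ, q ι (e' κ) = if κ = ι then 1 else 0)
    {T : X →L[ℝ] Y →L[ℝ] ℝ} (hT : ∀ ι κ, T (e ι) (e' κ) = if ι = κ then 1 else 0)
    (hcs : ∀ f : X →L[ℝ] ℝ, {ι | f (e ι) ≠ 0}.Countable)
    (hcs' : ∀ f : Y →L[ℝ] ℝ, {ι | f (e' ι) ≠ 0}.Countable)
    {R : Set X} (hR : ∀ x ∈ R, ∀ ι, |p ι x| ≤ 1 / 2)
    {R' : Set Y} (hR' : ∀ y ∈ R', ∀ ι, |q ι y| ≤ 1 / 2)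
    {C : Set X} (hC : C = closedConvexHull ℝ (Gen e VA ∪ R))
    {D : Set Y} (hD : D = closedConvexHull ℝ (Gen e' VB ∪ R')) :
    ¬ IsAPEP (closedConvexHull ℝ {z : ProjTensor X Y | ∃ x ∈ C, ∃ y ∈ D, z = tmul x y})
      (tmul (e root) (e' root)) := by
  intro hap
  obtain ⟨-, hap⟩ := hap
  -- coordinates of the generators
  have hrA : ∀ s, root ∉ VA s := fun s hs => by
    have := (h_le_VA s root hs).1
    simp [h] at this
  have hrB : ∀ s, root ∉ VB s := fun s hs => by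
    have := (h_le_VB s root hs).1
    simp [h] at this
  have hpg : ∀ (σ : ℝ) (s : Tm) (ε : Tm → ℝ),
      p root (σ • (e root + ∑ ι ∈ VA s, ε ι • e ι)) = σ := by
    intro σ s ε
    rw [map_smul, map_add, coord_sum hp, hp, if_pos rfl, if_neg (hrA s), smul_eq_mul]
    ring
  have hqg : ∀ (σ : ℝ) (s : Tm) (ε : Tm → ℝ),
      q root (σ • (e' root + ∑ ι ∈ VB s, ε ι • e' ι)) = σ := by
    intro σ s ε
    rw [map_smul, map_add, coord_sum hq, hq, if_pos rfl, if_neg (hrB s), smul_eq_mul]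
    ring
  have hp1 : ∀ x ∈ Gen e VA ∪ R, |p root x| ≤ 1 := by
    rintro x (⟨σ, s, ε, hσ, -, rfl⟩ | hx)
    · rw [hpg]
      rcases hσ with h1 | h1 <;> rw [h1] <;> norm_num
    · exact (hR x hx root).trans (by norm_num)
  have hq1 : ∀ x ∈ Gen e' VB ∪ R', |q root x| ≤ 1 := by
    rintro x (⟨σ, s, ε, hσ, -, rfl⟩ | hx)
    · rw [hqg]
      rcases hσ with h1 | h1 <;> rw [h1] <;> norm_num
    · exact (hR' x hx root).trans (by norm_num)
  -- the weak neighbourhood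
  set Q : X →L[ℝ] Y →L[ℝ] ℝ := (p root).smulRight (q root) with hQ
  have hQa : ∀ x y, Q x y = p root x * q root y := fun x y => by
    rw [hQ, ContinuousLinearMap.smulRight_apply, smul_apply, smul_eq_mul]
  set U : Set (WeakSpace ℝ (ProjTensor X Y)) :=
    {z | 1 / 2 < tfun Q ((toWeakSpace ℝ _).symm z)} ∩
      {z | |tfun T ((toWeakSpace ℝ _).symm z) - 1| < 1 / 2} with hUdef
  have hcont : ∀ φ : ProjTensor X Y →L[ℝ] ℝ,
      Continuous (fun z : WeakSpace ℝ (ProjTensor X Y) => φ ((toWeakSpace ℝ _).symm z)) :=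
    fun φ => WeakBilin.eval_continuous (topDualPairing ℝ (ProjTensor X Y)).flip φ
  have hUo : IsOpen U := by
    apply IsOpen.inter
    · exact isOpen_lt continuous_const (hcont _)
    · exact isOpen_lt ((hcont _).sub continuous_const).abs continuous_const
  have hx0 : toWeakSpace ℝ _ (tmul (e root) (e' root)) ∈ U := by
    constructor
    · simp only [Set.mem_ofPred_eq, LinearEquiv.symm_apply_apply, tfun_tmul, hQa, hp, hq, if_true]
      norm_num
    · simp only [Set.mem_ofPred_eq, LinearEquiv.symm_apply_apply, tfun_tmul, hT, if_true]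
      norm_num
  obtain ⟨φ, α, hα, hne, hsl⟩ := hap U hUo hx0
  set K := closedConvexHull ℝ {z : ProjTensor X Y | ∃ x ∈ C, ∃ y ∈ D, z = tmul x y} with hKdef
  have hgenK : ∀ x ∈ Gen e VA ∪ R, ∀ y ∈ Gen e' VB ∪ R', tmul x y ∈ K := by
    intro x hx y hy
    apply subset_closedConvexHull
    refine ⟨x, ?_, y, ?_, rfl⟩
    · rw [hC]; exact subset_closedConvexHull hx
    · rw [hD]; exact subset_closedConvexHull hy
  -- there is a generator in the slice
  have hex : ∃ x ∈ Gen e VA ∪ R, ∃ y ∈ Gen e' VB ∪ R', sSup (φ '' K) - α < φ (tmul x y) := by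
    by_contra hcon
    push Not at hcon
    have h1 : ∀ x ∈ C, ∀ y ∈ D, φ (tmul x y) ≤ sSup (φ '' K) - α := by
      intro x hx y hy
      have h2 : ∀ y ∈ Gen e' VB ∪ R', ∀ x ∈ C, φ (tmul x y) ≤ sSup (φ '' K) - α := by
        intro y hy x hx
        rw [hC] at hx
        have := hull_le (sl φ y) (sSup (φ '' K) - α) (fun x hx => by
          rw [sl_apply]; exact hcon x hx y hy) x hx
        rwa [sl_apply] at this
      rw [hD] at hy
      have := hull_le (bil φ x) (sSup (φ '' K) - α) (fun y hy => by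
          rw [bil_apply]; exact h2 y hy x hx) y hy
      rwa [bil_apply] at this
    have h3 : ∀ z ∈ K, φ z ≤ sSup (φ '' K) - α := by
      apply hull_le
      rintro z ⟨x, hx, y, hy, rfl⟩
      exact h1 x hx y hy
    obtain ⟨z, hz, -⟩ := hne
    have h4 : sSup (φ '' K) ≤ sSup (φ '' K) - α := by
      apply csSup_le (Set.Nonempty.image φ ⟨z, hz⟩)
      rintro _ ⟨w, hw, rfl⟩
      exact h3 w hw
    linarith
  obtain ⟨x, hx, y, hy, hxy⟩ := hex
  have hinU := hsl (tmul x y) ⟨hgenK x hx y hy, hxy⟩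
  rw [hUdef] at hinU
  obtain ⟨hU1, hU2⟩ := hinU
  simp only [Set.mem_ofPred_eq, LinearEquiv.symm_apply_apply, tfun_tmul, hQa] at hU1 hU2
  -- neither factor is in the small part
  have hxG : x ∈ Gen e VA := by
    rcases hx with hx | hx
    · exact hx
    · exfalso
      have h1 := hR x hx root
      have h2 := hq1 y hy
      have h3 : |p root x * q root y| ≤ 1 / 2 * 1 := by
        rw [abs_mul]
        exact mul_le_mul h1 h2 (abs_nonneg _) (by norm_num)
      have := (abs_le.mp h3).2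
      linarith
  have hyG : y ∈ Gen e' VB := by
    rcases hy with hy | hy
    · exact hy
    · exfalso
      have h1 := hp1 x hx
      have h2 := hR' y hy root
      have h3 : |p root x * q root y| ≤ 1 * (1 / 2) := by
        rw [abs_mul]
        exact mul_le_mul h1 h2 (abs_nonneg _) (by norm_num)
      have := (abs_le.mp h3).2
      linarith
  obtain ⟨σ, s, ε, hσ, hε, rfl⟩ := hxG
  obtain ⟨σ', t, ε', hσ', hε', rfl⟩ := hyG
  rw [hpg, hqg] at hU1
  have hss : σ * σ' = 1 := by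
    rcases hσ with h1 | h1 <;> rcases hσ' with h2 | h2 <;> rw [h1, h2] at hU1 ⊢ <;> norm_num at *
  have htm : tmul (σ • (e root + ∑ ι ∈ VA s, ε ι • e ι)) (σ' • (e' root + ∑ ι ∈ VB t, ε' ι • e' ι)) =
      tmul (e root + ∑ ι ∈ VA s, ε ι • e ι) (e' root + ∑ ι ∈ VB t, ε' ι • e' ι) := by
    rw [tmul_smul_left, tmul_smul_right, smul_smul, hss, one_smul]
  rw [htm] at hxy
  have hTv : T (σ • (e root + ∑ ι ∈ VA s, ε ι • e ι)) (σ' • (e' root + ∑ ι ∈ VB t, ε' ι • e' ι)) =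
      1 + ∑ ι ∈ VA s ∩ VB t, ε ι * ε' ι := by
    have h0 : T (σ • (e root + ∑ ι ∈ VA s, ε ι • e ι)) = σ • T (e root + ∑ ι ∈ VA s, ε ι • e ι) :=
      map_smul T _ _
    rw [h0, smul_apply, map_smul, smul_smul, hss, one_smul, T_gen hT]
  rw [hTv] at hU2
  -- the spines are disjoint
  have hdis : Disjoint (VA s) (VB t) := by
    rw [Finset.disjoint_left]
    intro κ h1 h2
    have h3 : VA s ∩ VB t = {κ} := by
      ext ι
      rw [Finset.mem_inter, Finset.mem_singleton]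
      constructor
      · rintro ⟨h4, h5⟩
        exact inter_unique s t ι κ h4 h5 h1 h2
      · rintro rfl
        exact ⟨h1, h2⟩
    rw [h3, Finset.sum_singleton] at hU2
    rcases hε κ with h4 | h4 <;> rcases hε' κ with h5 | h5 <;> rw [h4, h5] at hU2 <;>
      norm_num at hU2
  -- choose a fresh label
  have hbad : ({ξ : ℝ | sl φ (e' root + ∑ ι ∈ VB t, ε' ι • e' ι) (e (mk s t ξ)) ≠ 0} ∪
      {ξ : ℝ | bil φ (e root + ∑ ι ∈ VA s, ε ι • e ι) (e' (mk s t ξ)) ≠ 0}).Countable := by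
    apply Set.Countable.union
    · exact (hcs _).preimage_of_injOn (f := fun ξ : ℝ => mk s t ξ) (fun ξ _ ξ' _ hh => mk_inj hh)
    · exact (hcs' _).preimage_of_injOn (f := fun ξ : ℝ => mk s t ξ) (fun ξ _ ξ' _ hh => mk_inj hh)
  obtain ⟨ξ, hξ⟩ := (hbad.dense_compl ℝ).nonempty
  rw [Set.mem_compl_iff, Set.mem_union, not_or] at hξ
  obtain ⟨hξ1, hξ2⟩ := hξ
  simp only [Set.mem_ofPred_eq, not_not] at hξ1 hξ2
  rw [sl_apply] at hξ1
  rw [bil_apply] at hξ2
  set ι := mk s t ξ with hι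
  have hVA : VA ι = insert ι (VA s) := by rw [hι, VA_mk, if_pos hdis]
  have hVB : VB ι = insert ι (VB t) := by rw [hι, VB_mk, if_pos hdis]
  have hnA : ι ∉ VA s := self_notMem_VA s t ξ
  have hnB : ι ∉ VB t := self_notMem_VB s t ξ
  -- the sign
  obtain ⟨η, hη, hηc⟩ : ∃ η : ℝ, (η = 1 ∨ η = -1) ∧ 0 ≤ η * φ (tmul (e ι) (e' ι)) := by
    rcases le_total 0 (φ (tmul (e ι) (e' ι))) with h1 | h1
    · exact ⟨1, Or.inl rfl, by linarith⟩
    · exact ⟨-1, Or.inr rfl, by linarith⟩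
  have hsum1 : ∑ κ ∈ VA ι, (Function.update ε ι 1) κ • e κ = e ι + ∑ κ ∈ VA s, ε κ • e κ := by
    rw [hVA, Finset.sum_insert hnA, Function.update_self, one_smul]
    congr 1
    refine Finset.sum_congr rfl (fun κ hκ => ?_)
    rw [Function.update_of_ne]
    rintro rfl
    exact hnA hκ
  have hsum2 : ∑ κ ∈ VB ι, (Function.update ε' ι η) κ • e' κ = η • e' ι + ∑ κ ∈ VB t, ε' κ • e' κ := by
    rw [hVB, Finset.sum_insert hnB, Function.update_self]
    congr 1
    refine Finset.sum_congr rfl (fun κ hκ => ?_)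
    rw [Function.update_of_ne]
    rintro rfl
    exact hnB hκ
  set x' : X := e root + ∑ κ ∈ VA ι, (Function.update ε ι 1) κ • e κ with hx'
  set y' : Y := e' root + ∑ κ ∈ VB ι, (Function.update ε' ι η) κ • e' κ with hy'
  have hx'G : x' ∈ Gen e VA := by
    refine ⟨1, ι, Function.update ε ι 1, Or.inl rfl, fun κ => ?_, by rw [one_smul]⟩
    by_cases hκ : κ = ι
    · rw [hκ, Function.update_self]; exact Or.inl rfl
    · rw [Function.update_of_ne hκ]; exact hε κ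
  have hy'G : y' ∈ Gen e' VB := by
    refine ⟨1, ι, Function.update ε' ι η, Or.inl rfl, fun κ => ?_, by rw [one_smul]⟩
    by_cases hκ : κ = ι
    · rw [hκ, Function.update_self]; exact hη
    · rw [Function.update_of_ne hκ]; exact hε' κ
  have hφ : φ (tmul x' y') = φ (tmul (e root + ∑ ι ∈ VA s, ε ι • e ι)
      (e' root + ∑ ι ∈ VB t, ε' ι • e' ι)) + η * φ (tmul (e ι) (e' ι)) := by
    have e1 : x' = (e root + ∑ ι ∈ VA s, ε ι • e ι) + e ι := by rw [hx', hsum1]; abel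
    have e2 : y' = (e' root + ∑ ι ∈ VB t, ε' ι • e' ι) + η • e' ι := by rw [hy', hsum2]; abel
    rw [e1, e2]
    exact expand φ _ _ _ _ η hξ1 hξ2
  have hin2 := hsl (tmul x' y') ⟨hgenK x' (Or.inl hx'G) y' (Or.inl hy'G), by rw [hφ]; linarith⟩
  obtain ⟨-, hU3⟩ := hin2
  simp only [Set.mem_ofPred_eq, LinearEquiv.symm_apply_apply, tfun_tmul] at hU3
  rw [hx', hy', T_gen hT] at hU3
  have hint : VA ι ∩ VB ι = {ι} := by
    ext κ
    rw [Finset.mem_inter, Finset.mem_singleton, hVA, hVB, Finset.mem_insert, Finset.mem_insert]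
    constructor
    · rintro ⟨h1 | h1, h2 | h2⟩
      · exact h1
      · exact h1
      · exact h2
      · exact absurd h2 (Finset.disjoint_left.mp hdis h1)
    · rintro rfl
      exact ⟨Or.inl rfl, Or.inl rfl⟩
  rw [hint, Finset.sum_singleton, Function.update_self, Function.update_self] at hU3
  rcases hη with h1 | h1 <;> rw [h1] at hU3 <;> norm_num at hU3

end Two

end Pool.Agent.R272.Apep
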