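import Pool.Agent.R272.Apep.Defs0

set_option autoImplicit false
set_option maxSynthPendingDepth 3

namespace Pool.Agent.R272.Apep

section Tensor

variable (X Y : Type*) [NormedAddCommGroup X] [NormedSpace ℝ X]
  [NormedAddCommGroup Y] [NormedSpace ℝ Y]

variable {X Y} in
/-- The elementary tensor `x ⊗ y`, as the functional `T ↦ ⟨T x, y⟩` on `L(X, Y*)`. -/
noncomputable def elem (x : X) (y : Y) : (X →L[ℝ] Y →L[ℝ] ℝ) →L[ℝ] ℝ :=
  (ContinuousLinearMap.apply ℝ ℝ y).comp (ContinuousLinearMap.apply ℝ (Y →L[ℝ] ℝ) x)

/-- The closed linear span of the elementary tensors in `L(X, Y*)*`. -/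
noncomputable def projSub : Submodule ℝ ((X →L[ℝ] Y →L[ℝ] ℝ) →L[ℝ] ℝ) :=
  (Submodule.span ℝ (Set.range fun p : X × Y => elem p.1 p.2)).topologicalClosure

/-- The projective tensor product of `X` and `Y`, realised as the closed linear span of the
elementary tensors in `L(X, Y*)*` (its canonical isometric copy inside its bidual), with the
norm of that space. -/
def ProjTensor : Type _ := projSub X Y

noncomputable instance : NormedAddCommGroup (ProjTensor X Y) :=
  inferInstanceAs (NormedAddCommGroup (projSub X Y))

noncomputable instance : NormedSpace ℝ (ProjTensor X Y) :=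
  inferInstanceAs (NormedSpace ℝ (projSub X Y))

variable {X Y} in
/-- The elementary tensor `x ⊗ y` in the projective tensor product. -/
noncomputable def tmul (x : X) (y : Y) : ProjTensor X Y :=
  ⟨elem x y, Submodule.le_topologicalClosure _ (Submodule.subset_span ⟨(x, y), rfl⟩)⟩

end Tensor

end Pool.Agent.R272.Apep
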