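import Mathlib

set_option autoImplicit false

namespace Pool.Agent.R272.Apep

variable {E : Type*} [NormedAddCommGroup E] [NormedSpace ℝ E]

/-- The slice `{x ∈ C : f x > sup_C f - α}`. -/
def slice (C : Set E) (f : E →L[ℝ] ℝ) (α : ℝ) : Set E := {x ∈ C | sSup (f '' C) - α < f x}

/-- `x₀` is an almost preserved extreme point of `C`: it belongs to `C`, and every relatively
weakly open subset of `C` that contains `x₀` contains a non-empty slice of `C`. -/
def IsAPEP (C : Set E) (x₀ : E) : Prop :=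
  x₀ ∈ C ∧ ∀ U : Set (WeakSpace ℝ E), IsOpen U → toWeakSpace ℝ E x₀ ∈ U →
    ∃ (f : E →L[ℝ] ℝ) (α : ℝ), 0 < α ∧ (slice C f α).Nonempty ∧
      ∀ x ∈ slice C f α, toWeakSpace ℝ E x ∈ U

/-- `τ : X × Y → Z` exhibits the Banach space `Z` as the projective tensor product of `X` and `Y`:
the closed unit ball of `Z` is the closed convex hull of the `τ x y` with `‖x‖, ‖y‖ ≤ 1`, and
every bounded bilinear form on `X × Y` is of the form `φ ∘ τ` for some `φ ∈ Z*`
(so that `Z* = L(X, Y*)` isometrically). -/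
def IsProjTensor {X Y Z : Type*} [NormedAddCommGroup X] [NormedSpace ℝ X]
    [NormedAddCommGroup Y] [NormedSpace ℝ Y] [NormedAddCommGroup Z] [NormedSpace ℝ Z]
    (τ : X →L[ℝ] Y →L[ℝ] Z) : Prop :=
  closedConvexHull ℝ {z : Z | ∃ x y, ‖x‖ ≤ 1 ∧ ‖y‖ ≤ 1 ∧ z = τ x y} = Metric.closedBall 0 1 ∧
  ∀ S : X →L[ℝ] Y →L[ℝ] ℝ, ∃ φ : Z →L[ℝ] ℝ, ∀ x y, φ (τ x y) = S x y

end Pool.Agent.R272.Apep
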