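import Mathlib

set_option autoImplicit false
set_option maxSynthPendingDepth 3

open scoped Topology

namespace Pool.Agent.R272.Apep

/-- A closed bounded symmetric convex body. -/
structure Body (E : Type*) [NormedAddCommGroup E] [NormedSpace ℝ E] where
  B : Set E
  conv : Convex ℝ B
  closed : IsClosed B
  symm : ∀ x ∈ B, -x ∈ B
  r : ℝ
  hr : 0 < r
  ball : Metric.ball 0 r ⊆ B
  R : ℝ
  hR : 0 < R
  bdd : B ⊆ Metric.closedBall 0 R

/-- `E` renormed by the gauge of the body. -/
def Ren {E : Type*} [NormedAddCommGroup E] [NormedSpace ℝ E] (_b : Body E) : Type _ := E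

namespace Ren

variable {E : Type*} [NormedAddCommGroup E] [NormedSpace ℝ E] (b : Body E)

noncomputable instance : AddCommGroup (Ren b) := inferInstanceAs (AddCommGroup E)
noncomputable instance : Module ℝ (Ren b) := inferInstanceAs (Module ℝ E)
noncomputable instance : Norm (Ren b) := ⟨fun x => gauge b.B (show E from x)⟩

/-- the identity -/
noncomputable def toE : Ren b ≃ₗ[ℝ] E := LinearEquiv.refl ℝ E

theorem norm_def (x : Ren b) : ‖x‖ = gauge b.B (toE b x) := rfl

theorem nhds0 : b.B ∈ 𝓝 (0 : E) := Filter.mem_of_superset (Metric.ball_mem_nhds 0 b.hr) b.ball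

theorem absorbent : Absorbent ℝ b.B := absorbent_nhds_zero (nhds0 b)

theorem gauge_symm (x : E) : gauge b.B (-x) = gauge b.B x := gauge_neg b.symm x

theorem lower (x : E) : ‖x‖ / b.R ≤ gauge b.B x :=
  le_gauge_of_subset_closedBall (absorbent b) b.hR.le b.bdd

theorem upper (x : E) : b.r * gauge b.B x ≤ ‖x‖ := mul_gauge_le_norm b.ball

theorem core : NormedSpace.Core ℝ (Ren b) where
  norm_nonneg x := gauge_nonneg _
  norm_smul c x := by
    rw [norm_def, norm_def, map_smul]
    rcases le_total 0 c with hc | hc
    · rw [gauge_smul_of_nonneg hc, Real.norm_eq_abs, abs_of_nonneg hc, smul_eq_mul]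
    · have h1 : c • (toE b x) = -((-c) • toE b x) := by rw [neg_smul, neg_neg]
      rw [h1, gauge_symm, gauge_smul_of_nonneg (neg_nonneg.mpr hc), Real.norm_eq_abs,
        abs_of_nonpos hc, smul_eq_mul]
  norm_triangle x y := by
    rw [norm_def, norm_def, norm_def, map_add]
    exact gauge_add_le b.conv (absorbent b) _ _
  norm_eq_zero_iff x := by
    rw [norm_def]
    constructor
    · intro hx
      have h1 := lower b (toE b x)
      rw [hx] at h1
      have h2 : ‖toE b x‖ ≤ 0 := by
        by_contra hcon
        push Not at hcon
        have := div_pos hcon b.hR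
        linarith
      have h3 : toE b x = 0 := norm_le_zero_iff.mp h2
      exact (LinearEquiv.map_eq_zero_iff _).mp h3
    · rintro rfl
      rw [map_zero, gauge_zero]

noncomputable instance : NormedAddCommGroup (Ren b) := NormedAddCommGroup.ofCore (core b)
noncomputable instance : NormedSpace ℝ (Ren b) := NormedSpace.ofCore (core b)

/-- the identity as a continuous linear equivalence -/
noncomputable def L : Ren b ≃L[ℝ] E :=
  LinearEquiv.toContinuousLinearEquivOfBounds (toE b) b.R (1 / b.r)
    (fun x => by
      have := lower b (toE b x)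
      rw [div_le_iff₀ b.hR] at this
      rw [norm_def]
      linarith)
    (fun x => by
      have h1 := upper b x
      have h2 : ‖(toE b).symm x‖ = gauge b.B x := rfl
      rw [h2, one_div, inv_mul_eq_div, le_div_iff₀ b.hr]
      linarith)

theorem complete [CompleteSpace E] : CompleteSpace (Ren b) :=
  (completeSpace_congr (e := (L b).toLinearEquiv.toEquiv) (L b).isUniformEmbedding).mpr inferInstance

theorem closedBall_eq : Metric.closedBall (0 : Ren b) 1 = (L b) ⁻¹' b.B := by
  ext x
  rw [mem_closedBall_zero_iff, Set.mem_preimage, norm_def,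
    gauge_le_one_iff_mem_closure b.conv (nhds0 b), b.closed.closure_eq]
  rfl

end Ren

/-- closed convex hulls commute with linear homeomorphisms -/
theorem hull_preimage {E F : Type*} [NormedAddCommGroup E] [NormedSpace ℝ E]
    [NormedAddCommGroup F] [NormedSpace ℝ F] (L : F ≃L[ℝ] E) (S : Set E) :
    closedConvexHull ℝ (L ⁻¹' S) = L ⁻¹' (closedConvexHull ℝ S) := by
  apply Set.Subset.antisymm
  · apply closedConvexHull_min
    · exact Set.preimage_mono subset_closedConvexHull
    · exact (convex_closedConvexHull (𝕜 := ℝ)).linear_preimage (L : F ≃L[ℝ] E).toLinearEquiv.toLinearMap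
    · exact isClosed_closedConvexHull.preimage L.continuous
  · intro x hx
    have h1 : closedConvexHull ℝ S ⊆ L.symm ⁻¹' (closedConvexHull ℝ (L ⁻¹' S)) := by
      apply closedConvexHull_min
      · intro y hy
        apply subset_closedConvexHull
        rw [Set.mem_preimage, ContinuousLinearEquiv.apply_symm_apply]
        exact hy
      · exact (convex_closedConvexHull (𝕜 := ℝ)).linear_preimage L.symm.toLinearEquiv.toLinearMap
      · exact isClosed_closedConvexHull.preimage L.symm.continuous
    have := h1 hx
    rwa [Set.mem_preimage, ContinuousLinearEquiv.symm_apply_apply] at this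

/-- The body spanned by a bounded symmetric set and a ball. -/
noncomputable def mkBody {E : Type*} [NormedAddCommGroup E] [NormedSpace ℝ E] (G : Set E)
    (hsymm : ∀ x ∈ G, -x ∈ G) (hbd : ∀ x ∈ G, ‖x‖ ≤ 2) : Body E where
  B := closedConvexHull ℝ (G ∪ Metric.closedBall 0 (1 / 2))
  conv := convex_closedConvexHull
  closed := isClosed_closedConvexHull
  symm := by
    have h1 : closedConvexHull ℝ (G ∪ Metric.closedBall (0 : E) (1 / 2)) ⊆
        {x | -x ∈ closedConvexHull ℝ (G ∪ Metric.closedBall (0 : E) (1 / 2))} := by
      apply closedConvexHull_min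
      · rintro x (hx | hx)
        · exact subset_closedConvexHull (Or.inl (hsymm x hx))
        · apply subset_closedConvexHull
          right
          rw [mem_closedBall_zero_iff] at hx ⊢
          rwa [norm_neg]
      · exact (convex_closedConvexHull (𝕜 := ℝ)).linear_preimage (-LinearMap.id)
      · exact isClosed_closedConvexHull.preimage continuous_neg
    exact fun x hx => h1 hx
  r := 1 / 2
  hr := by norm_num
  ball := fun x hx => subset_closedConvexHull (Or.inr (Metric.ball_subset_closedBall hx))
  R := 2
  hR := by norm_num
  bdd := by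
    apply closedConvexHull_min _ (convex_closedBall _ _) Metric.isClosed_closedBall
    rintro x (hx | hx)
    · rw [mem_closedBall_zero_iff]; exact hbd x hx
    · rw [mem_closedBall_zero_iff] at hx ⊢
      linarith

end Pool.Agent.R272.Apep
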