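import Pool.Agent.R272.Apep.Tm

set_option autoImplicit false

open scoped Classical BoundedContinuousFunction

namespace Pool.Agent.R272.Apep

open Tm

/-- The test functionals. -/
def Phi : Set (Tm → ℝ) :=
  {φ | (∃ (t : Tm) (ε : Tm → ℝ), (∀ κ, |ε κ| ≤ 1) ∧ φ = fun ι => if ι ∈ VB t then ε ι else 0) ∨
    (∃ (n : ℕ) (F : Finset Tm) (c : Tm → ℝ), (∀ ι ∈ F, h ι = n) ∧ ∑ ι ∈ F, c ι ^ 2 ≤ 1 ∧
      φ = fun ι => if ι ∈ F then c ι else 0)}

theorem Phi_le (φ : Tm → ℝ) (hφ : φ ∈ Phi) (ι : Tm) : |φ ι| ≤ 1 := by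
  rcases hφ with ⟨t, ε, hε, rfl⟩ | ⟨n, F, c, hF, hc, rfl⟩
  · simp only
    split_ifs
    · exact hε ι
    · simp
  · simp only
    split_ifs with hm
    · have h1 : c ι ^ 2 ≤ 1 :=
        le_trans (Finset.single_le_sum (f := fun ι => c ι ^ 2) (fun i _ => sq_nonneg _) hm) hc
      exact abs_le_one_iff_mul_self_le_one.mpr (by nlinarith)
    · simp

/-- the unit vectors -/
noncomputable def ev0 (ι : Tm) : Phi →ᵇ ℝ :=
  BoundedContinuousFunction.ofNormedAddCommGroup (fun φ : Phi => φ.1 ι)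
    ((continuous_apply ι).comp continuous_subtype_val) 1 (fun φ => Phi_le φ.1 φ.2 ι)

theorem ev0_apply (ι : Tm) (φ : Phi) : ev0 ι φ = φ.1 ι := rfl

/-- The base space, as a closed subspace. -/
noncomputable def XS : Submodule ℝ (Phi →ᵇ ℝ) :=
  (Submodule.span ℝ (Set.range ev0)).topologicalClosure

/-- The base space. -/
def X0 : Type := XS

noncomputable instance : NormedAddCommGroup X0 := inferInstanceAs (NormedAddCommGroup XS)
noncomputable instance : NormedSpace ℝ X0 := inferInstanceAs (NormedSpace ℝ XS)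
noncomputable instance : CompleteSpace X0 :=
  (Submodule.isClosed_topologicalClosure (Submodule.span ℝ (Set.range ev0))).completeSpace_coe

/-- the inclusion into bounded functions -/
noncomputable def inc : X0 →L[ℝ] (Phi →ᵇ ℝ) := XS.subtypeL

theorem inc_norm (x : X0) : ‖inc x‖ = ‖x‖ := rfl

noncomputable def ee (ι : Tm) : X0 :=
  ⟨ev0 ι, Submodule.le_topologicalClosure _ (Submodule.subset_span ⟨ι, rfl⟩)⟩

theorem ee_apply (ι : Tm) (φ : Phi) : inc (ee ι) φ = φ.1 ι := rfl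

/-- evaluation functional at a test functional -/
noncomputable def evl (φ : Phi) : X0 →L[ℝ] ℝ :=
  (BoundedContinuousFunction.evalCLM ℝ φ).comp inc

theorem evl_apply (φ : Phi) (x : X0) : evl φ x = inc x φ := rfl

theorem evl_norm (φ : Phi) : ‖evl φ‖ ≤ 1 := by
  refine ContinuousLinearMap.opNorm_le_bound _ zero_le_one (fun x => ?_)
  rw [evl_apply, one_mul, ← inc_norm]
  exact (inc x).norm_coe_le_norm φ

theorem clm_ext {f g : X0 →L[ℝ] ℝ} (hfg : ∀ ι, f (ee ι) = g (ee ι)) : f = g := by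
  have hcl : IsClosed {x : X0 | f x = g x} := isClosed_eq f.continuous g.continuous
  ext x
  have hx : x ∈ closure (Submodule.span ℝ (Set.range ee) : Set X0) := by
    have hind : Topology.IsInducing inc := Topology.IsInducing.subtypeVal
    rw [hind.closure_eq_preimage_closure_image, Set.mem_preimage]
    have h1 : inc x ∈ closure (Submodule.span ℝ (Set.range ev0) : Set (Phi →ᵇ ℝ)) := x.2
    refine closure_mono ?_ h1
    intro y hy
    have h2 : (Submodule.span ℝ (Set.range ee)).map inc.toLinearMap =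
        Submodule.span ℝ (Set.range ev0) := by
      rw [Submodule.map_span, ← Set.range_comp]
      rfl
    rw [SetLike.mem_coe, ← h2] at hy
    obtain ⟨z, hz, rfl⟩ := hy
    exact ⟨z, hz, rfl⟩
  have hsub : (Submodule.span ℝ (Set.range ee) : Set X0) ⊆ {x : X0 | f x = g x} := by
    intro y hy
    induction hy using Submodule.span_induction with
    | mem x hx => obtain ⟨ι, rfl⟩ := hx; exact hfg ι
    | zero => simp
    | add x y _ _ h1 h2 => simp only [Set.mem_ofPred_eq] at *; rw [map_add, map_add, h1, h2]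
    | smul a x _ h1 => simp only [Set.mem_ofPred_eq] at *; rw [map_smul, map_smul, h1]
  exact closure_minimal hsub hcl hx

/-- the coordinate test functional -/
theorem dl_mem (ι : Tm) : (fun κ => if κ ∈ ({ι} : Finset Tm) then (1 : ℝ) else 0) ∈ Phi := by
  refine Or.inr ⟨h ι, {ι}, fun _ => 1, ?_, ?_, rfl⟩
  · intro κ hκ
    rw [Finset.mem_singleton] at hκ
    rw [hκ]
  · simp

noncomputable def pp (ι : Tm) : X0 →L[ℝ] ℝ := evl ⟨_, dl_mem ι⟩

theorem pp_ee (ι κ : Tm) : pp ι (ee κ) = if κ = ι then 1 else 0 := by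
  rw [pp, evl_apply, ee_apply]
  simp

theorem pp_norm (ι : Tm) : ‖pp ι‖ ≤ 1 := evl_norm _

theorem evl_eq_sum (φ : Phi) (F : Finset Tm) (hF : ∀ ι, ι ∉ F → φ.1 ι = 0) :
    evl φ = ∑ ι ∈ F, φ.1 ι • pp ι := by
  apply clm_ext
  intro κ
  rw [evl_apply, ee_apply, sum_apply]
  simp only [smul_apply, pp_ee, smul_eq_mul, mul_ite, mul_one, mul_zero]
  rw [Finset.sum_ite_eq]
  split_ifs with hm
  · rfl
  · exact hF κ hm

/-- norm of an element of `X0` -/
theorem norm_le_of (x : X0) {C : ℝ} (hC : 0 ≤ C) (hx : ∀ φ : Phi, |inc x φ| ≤ C) :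
    ‖x‖ ≤ C := by
  rw [← inc_norm]
  exact (BoundedContinuousFunction.norm_le hC).mpr hx

theorem coe_sum_apply (F : Finset Tm) (c : Tm → ℝ) (φ : Phi) :
    inc (∑ ι ∈ F, c ι • ee ι : X0) φ = ∑ ι ∈ F, c ι * φ.1 ι := by
  have : evl φ (∑ ι ∈ F, c ι • ee ι) = ∑ ι ∈ F, c ι * φ.1 ι := by
    rw [map_sum]
    refine Finset.sum_congr rfl (fun ι _ => ?_)
    rw [map_smul, evl_apply, ee_apply, smul_eq_mul]
  rw [← this, evl_apply]

theorem sum_le_one_of_unique (F G : Finset Tm) (hu : ∀ κ κ', κ ∈ F → κ ∈ G → κ' ∈ F → κ' ∈ G → κ = κ')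
    (c φ : Tm → ℝ) {M : ℝ} (hM : 0 ≤ M) (hc : ∀ ι ∈ F, |c ι| ≤ M) (hφ : ∀ ι, |φ ι| ≤ 1)
    (h0 : ∀ ι, ι ∉ G → φ ι = 0) : |∑ ι ∈ F, c ι * φ ι| ≤ M := by
  by_cases hne : ∃ κ, κ ∈ F ∧ κ ∈ G
  · obtain ⟨κ, h1, h2⟩ := hne
    rw [Finset.sum_eq_single_of_mem κ h1]
    · rw [abs_mul]
      calc |c κ| * |φ κ| ≤ M * 1 := mul_le_mul (hc κ h1) (hφ κ) (abs_nonneg _) hM
        _ = M := mul_one M
    · intro b hb hbne
      have : b ∉ G := fun hbG => hbne (hu b κ hb hbG h1 h2)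
      rw [h0 b this, mul_zero]
  · rw [Finset.sum_eq_zero]
    · simpa using hM
    · intro ι hι
      have : ι ∉ G := fun hG => hne ⟨ι, hι, hG⟩
      rw [h0 ι this, mul_zero]

/-- sums over left spines are bounded -/
theorem norm_spine (s : Tm) (ε : Tm → ℝ) (hε : ∀ κ, |ε κ| ≤ 1) :
    ‖(∑ ι ∈ VA s, ε ι • ee ι : X0)‖ ≤ 1 := by
  apply norm_le_of _ zero_le_one
  intro φ
  rw [coe_sum_apply]
  rcases φ.2 with ⟨t, δ, hδ, hφ⟩ | ⟨n, F, c, hF, hc, hφ⟩
  · apply sum_le_one_of_unique (VA s) (VB t) (fun κ κ' h1 h2 h3 h4 => inter_unique s t κ κ' h1 h2 h3 h4)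
      ε φ.1 zero_le_one (fun ι _ => hε ι) (fun ι => Phi_le φ.1 φ.2 ι)
    intro ι hι
    rw [hφ]
    simp [hι]
  · apply sum_le_one_of_unique (VA s) F
      (fun κ κ' h1 h2 h3 h4 => inj_VA s κ κ' h1 h3 ((hF κ h2).trans (hF κ' h4).symm))
      ε φ.1 zero_le_one (fun ι _ => hε ι) (fun ι => Phi_le φ.1 φ.2 ι)
    intro ι hι
    rw [hφ]
    simp [hι]

/-- upper `ℓ²` estimate on a level -/
theorem norm_level (n : ℕ) (F : Finset Tm) (hF : ∀ ι ∈ F, h ι = n) (c : Tm → ℝ) :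
    ‖(∑ ι ∈ F, c ι • ee ι : X0)‖ ≤ √(∑ ι ∈ F, c ι ^ 2) := by
  apply norm_le_of _ (Real.sqrt_nonneg _)
  intro φ
  rw [coe_sum_apply]
  rcases φ.2 with ⟨t, δ, hδ, hφ⟩ | ⟨m, G, d, hG, hd, hφ⟩
  · apply sum_le_one_of_unique F (VB t)
      (fun κ κ' h1 h2 h3 h4 => inj_VB t κ κ' h2 h4 ((hF κ h1).trans (hF κ' h3).symm))
      c φ.1 (Real.sqrt_nonneg _) _ (fun ι => Phi_le φ.1 φ.2 ι)
    · intro ι hι
      rw [hφ]
      simp [hι]
    · intro ι hι
      apply Real.abs_le_sqrt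
      exact Finset.single_le_sum (f := fun ι => c ι ^ 2) (fun i _ => sq_nonneg _) hι
  · apply Real.abs_le_sqrt
    calc (∑ ι ∈ F, c ι * φ.1 ι) ^ 2 ≤ (∑ ι ∈ F, c ι ^ 2) * (∑ ι ∈ F, φ.1 ι ^ 2) :=
          Finset.sum_mul_sq_le_sq_mul_sq F _ _
      _ ≤ (∑ ι ∈ F, c ι ^ 2) * 1 := by
          apply mul_le_mul_of_nonneg_left _ (Finset.sum_nonneg (fun i _ => sq_nonneg _))
          calc ∑ ι ∈ F, φ.1 ι ^ 2 = ∑ ι ∈ F, (if ι ∈ G then d ι ^ 2 else 0) := by
                refine Finset.sum_congr rfl (fun ι _ => ?_)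
                rw [hφ]
                simp only
                split_ifs <;> simp
            _ = ∑ ι ∈ F ∩ G, d ι ^ 2 := by
                rw [← Finset.sum_filter, Finset.filter_mem_eq_inter]
            _ ≤ ∑ ι ∈ G, d ι ^ 2 := Finset.sum_le_sum_of_subset_of_nonneg
                Finset.inter_subset_right (fun i _ _ => sq_nonneg _)
            _ ≤ 1 := hd
      _ = ∑ ι ∈ F, c ι ^ 2 := mul_one _

/-- dual right spine estimate -/
theorem norm_spine_dual (t : Tm) (ε : Tm → ℝ) (hε : ∀ κ, |ε κ| ≤ 1) :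
    ‖(∑ ι ∈ VB t, ε ι • pp ι : X0 →L[ℝ] ℝ)‖ ≤ 1 := by
  have hφ : (fun ι => if ι ∈ VB t then ε ι else 0) ∈ Phi := Or.inl ⟨t, ε, hε, rfl⟩
  have h1 := evl_eq_sum ⟨_, hφ⟩ (VB t) (fun ι hι => by simp [hι])
  have h2 : (∑ ι ∈ VB t, ε ι • pp ι : X0 →L[ℝ] ℝ) = evl ⟨_, hφ⟩ := by
    rw [h1]
    refine Finset.sum_congr rfl (fun ι hι => ?_)
    simp [hι]
  rw [h2]
  exact evl_norm _

/-- dual level estimate -/
theorem norm_level_dual (n : ℕ) (F : Finset Tm) (hF : ∀ ι ∈ F, h ι = n) (c : Tm → ℝ)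
    (hc : ∑ ι ∈ F, c ι ^ 2 ≤ 1) : ‖(∑ ι ∈ F, c ι • pp ι : X0 →L[ℝ] ℝ)‖ ≤ 1 := by
  have hφ : (fun ι => if ι ∈ F then c ι else 0) ∈ Phi := Or.inr ⟨n, F, c, hF, hc, rfl⟩
  have h1 := evl_eq_sum ⟨_, hφ⟩ F (fun ι hι => by simp [hι])
  have h2 : (∑ ι ∈ F, c ι • pp ι : X0 →L[ℝ] ℝ) = evl ⟨_, hφ⟩ := by
    rw [h1]
    refine Finset.sum_congr rfl (fun ι hι => ?_)
    simp [hι]
  rw [h2]
  exact evl_norm _

/-- Countable support of functionals, abstractly. -/
theorem countable_support {E : Type*} [NormedAddCommGroup E] [NormedSpace ℝ E] (e : Tm → E)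
    (he : ∀ (n : ℕ) (F : Finset Tm), (∀ ι ∈ F, h ι = n) → ∀ c : Tm → ℝ, ∑ ι ∈ F, c ι ^ 2 ≤ 1 →
      ‖∑ ι ∈ F, c ι • e ι‖ ≤ 1) (f : E →L[ℝ] ℝ) : {ι | f (e ι) ≠ 0}.Countable := by
  have hlev : ∀ n : ℕ, {ι | h ι = n ∧ f (e ι) ≠ 0}.Countable := by
    intro n
    have hb : ∀ F : Finset Tm, (∀ ι ∈ F, h ι = n) → ∑ ι ∈ F, f (e ι) ^ 2 ≤ ‖f‖ ^ 2 := by
      intro F hF
      set S := ∑ ι ∈ F, f (e ι) ^ 2 with hS
      have hS0 : 0 ≤ S := Finset.sum_nonneg (fun i _ => sq_nonneg _)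
      rcases hS0.eq_or_lt with h0 | hpos
      · rw [← h0]; positivity
      · have hsq : √S ≠ 0 := (Real.sqrt_pos.mpr hpos).ne'
        have h1 := he n F hF (fun ι => f (e ι) / √S) (by
          simp only [div_pow]
          rw [← Finset.sum_div, Real.sq_sqrt hS0, ← hS, div_self hpos.ne'])
        have h2 : f (∑ ι ∈ F, (f (e ι) / √S) • e ι) = S / √S := by
          rw [map_sum, hS, Finset.sum_div]
          refine Finset.sum_congr rfl (fun ι _ => ?_)
          rw [map_smul, smul_eq_mul]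
          ring
        have h3 : |f (∑ ι ∈ F, (f (e ι) / √S) • e ι)| ≤ ‖f‖ * 1 := by
          refine (f.le_opNorm _).trans ?_
          exact mul_le_mul_of_nonneg_left h1 (norm_nonneg _)
        rw [h2, Real.div_sqrt, mul_one, abs_of_nonneg (Real.sqrt_nonneg _)] at h3
        calc S = √S ^ 2 := (Real.sq_sqrt hS0).symm
          _ ≤ ‖f‖ ^ 2 := by gcongr
    have hs : Summable (fun ι : Tm => if h ι = n then f (e ι) ^ 2 else 0) := by
      apply summable_of_sum_le (c := ‖f‖ ^ 2)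
      · intro ι
        simp only
        split_ifs
        · positivity
        · exact le_rfl
      · intro u
        rw [← Finset.sum_filter]
        exact hb _ (fun ι hι => (Finset.mem_filter.mp hι).2)
    refine hs.countable_support.mono ?_
    intro ι hι
    rw [Function.mem_support]
    simp only [Set.mem_ofPred_eq] at hι
    rw [if_pos hι.1]
    exact pow_ne_zero 2 hι.2
  have : {ι | f (e ι) ≠ 0} = ⋃ n : ℕ, {ι | h ι = n ∧ f (e ι) ≠ 0} := by
    ext ι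
    simp
  rw [this]
  exact Set.countable_iUnion hlev

theorem cs_ee (f : X0 →L[ℝ] ℝ) : {ι | f (ee ι) ≠ 0}.Countable := by
  apply countable_support
  intro n F hF c hc
  refine (norm_level n F hF c).trans ?_
  rw [Real.sqrt_le_one]
  exact hc

theorem cs_pp (f : (X0 →L[ℝ] ℝ) →L[ℝ] ℝ) : {ι | f (pp ι) ≠ 0}.Countable := by
  apply countable_support
  intro n F hF c hc
  exact norm_level_dual n F hF c hc

end Pool.Agent.R272.Apep
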