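import Pool.Agent.R272.Apep.Core
import Pool.Agent.R272.Apep.Space
import Pool.Agent.R272.Apep.Ren

set_option autoImplicit false
set_option maxSynthPendingDepth 3

open scoped Classical

namespace Pool.Agent.R272.Apep

open Tm

theorem gen_symm {E : Type*} [NormedAddCommGroup E] [NormedSpace ℝ E] (e : Tm → E)
    (Sp : Tm → Finset Tm) : ∀ x ∈ Gen e Sp, -x ∈ Gen e Sp := by
  rintro x ⟨σ, s, ε, hσ, hε, rfl⟩
  refine ⟨-σ, s, ε, ?_, hε, by rw [neg_smul]⟩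
  rcases hσ with h1 | h1
  · right; rw [h1]
  · left; rw [h1, neg_neg]

theorem gen_norm {E : Type*} [NormedAddCommGroup E] [NormedSpace ℝ E] (e : Tm → E)
    (Sp : Tm → Finset Tm) (h0 : ‖e root‖ ≤ 1)
    (hs : ∀ s (ε : Tm → ℝ), (∀ κ, |ε κ| ≤ 1) → ‖∑ ι ∈ Sp s, ε ι • e ι‖ ≤ 1) :
    ∀ x ∈ Gen e Sp, ‖x‖ ≤ 2 := by
  rintro x ⟨σ, s, ε, hσ, hε, rfl⟩
  have h1 : ‖σ‖ = 1 := by
    rcases hσ with h1 | h1 <;> rw [h1] <;> norm_num
  have h2 : ∀ κ, |ε κ| ≤ 1 := by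
    intro κ
    rcases hε κ with h2 | h2 <;> rw [h2] <;> norm_num
  rw [norm_smul, h1, one_mul]
  calc ‖e root + ∑ ι ∈ Sp s, ε ι • e ι‖ ≤ ‖e root‖ + ‖∑ ι ∈ Sp s, ε ι • e ι‖ := norm_add_le _ _
    _ ≤ 1 + 1 := add_le_add h0 (hs s ε h2)
    _ = 2 := by norm_num

theorem ee_norm (ι : Tm) : ‖ee ι‖ ≤ 1 := by
  apply norm_le_of _ zero_le_one
  intro φ
  rw [ee_apply]
  exact Phi_le φ.1 φ.2 ι

/-- the first body -/
noncomputable def bX : Body X0 :=
  mkBody (Gen ee VA) (gen_symm ee VA) (gen_norm ee VA (ee_norm root) norm_spine)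

/-- the second body -/
noncomputable def bY : Body (X0 →L[ℝ] ℝ) :=
  mkBody (Gen pp VB) (gen_symm pp VB) (gen_norm pp VB (pp_norm root) norm_spine_dual)

/-- general transfer: the root is an APEP of the unit ball of the renormed space -/
theorem apep_ren {E : Type*} [NormedAddCommGroup E] [NormedSpace ℝ E] {e : Tm → E}
    {p : Tm → (E →L[ℝ] ℝ)} (hp : ∀ ι κ, p ι (e κ) = if κ = ι then 1 else 0)
    {Sp : Tm → Finset Tm}
    (hSp0 : Sp root = ∅) (hSp1 : ∀ s κ, κ ∈ Sp s → 1 ≤ h κ)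
    (hSp2 : ∀ s ι κ, ι ∈ Sp s → κ ∈ Sp s → h ι ≤ h κ → ι ∈ Sp κ)
    (hSp3 : ∀ ξ, Sp (mk root root ξ) = {mk root root ξ})
    (hcs : ∀ f : E →L[ℝ] ℝ, {ι | f (e ι) ≠ 0}.Countable)
    (hpn : ∀ ι, ‖p ι‖ ≤ 1) (b : Body E)
    (hb : b.B = closedConvexHull ℝ (Gen e Sp ∪ Metric.closedBall 0 (1 / 2))) :
    (∀ ι κ, (p ι).comp (Ren.L b : Ren b →L[ℝ] E) ((Ren.L b).symm (e κ)) = if κ = ι then 1 else 0) ∧
    (∀ f : Ren b →L[ℝ] ℝ, {ι | f ((Ren.L b).symm (e ι)) ≠ 0}.Countable) ∧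
    (∀ x ∈ (Ren.L b) ⁻¹' (Metric.closedBall (0 : E) (1 / 2)), ∀ ι,
      |(p ι).comp (Ren.L b : Ren b →L[ℝ] E) x| ≤ 1 / 2) ∧
    Metric.closedBall (0 : Ren b) 1 = closedConvexHull ℝ
      (Gen (fun ι => (Ren.L b).symm (e ι)) Sp ∪ (Ren.L b) ⁻¹' (Metric.closedBall (0 : E) (1 / 2))) ∧
    IsAPEP (Metric.closedBall (0 : Ren b) 1) ((Ren.L b).symm (e root)) := by
  have a1 : ∀ ι κ, (p ι).comp (Ren.L b : Ren b →L[ℝ] E) ((Ren.L b).symm (e κ)) =
      if κ = ι then 1 else 0 := by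
    intro ι κ
    rw [ContinuousLinearMap.comp_apply, ContinuousLinearEquiv.coe_coe,
      ContinuousLinearEquiv.apply_symm_apply]
    exact hp ι κ
  have a2 : ∀ f : Ren b →L[ℝ] ℝ, {ι | f ((Ren.L b).symm (e ι)) ≠ 0}.Countable := by
    intro f
    exact hcs (f.comp ((Ren.L b).symm : E →L[ℝ] Ren b))
  have a3 : ∀ x ∈ (Ren.L b) ⁻¹' (Metric.closedBall (0 : E) (1 / 2)), ∀ ι,
      |(p ι).comp (Ren.L b : Ren b →L[ℝ] E) x| ≤ 1 / 2 := by
    intro x hx ι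
    rw [Set.mem_preimage, mem_closedBall_zero_iff] at hx
    rw [ContinuousLinearMap.comp_apply, ContinuousLinearEquiv.coe_coe]
    calc |p ι (Ren.L b x)| ≤ ‖p ι‖ * ‖Ren.L b x‖ := (p ι).le_opNorm _
      _ ≤ 1 * (1 / 2) := by
        gcongr
        exact hpn ι
      _ = 1 / 2 := one_mul _
  have hgen : (Ren.L b) ⁻¹' (Gen e Sp) = Gen (fun ι => (Ren.L b).symm (e ι)) Sp := by
    ext x
    constructor
    · rintro ⟨σ, s, ε, hσ, hε, hx⟩
      refine ⟨σ, s, ε, hσ, hε, ?_⟩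
      apply (Ren.L b).injective
      rw [hx]
      simp only [map_smul, map_add, map_sum, ContinuousLinearEquiv.apply_symm_apply]
    · rintro ⟨σ, s, ε, hσ, hε, rfl⟩
      refine ⟨σ, s, ε, hσ, hε, ?_⟩
      simp only [map_smul, map_add, map_sum, ContinuousLinearEquiv.apply_symm_apply]
  have a4 : Metric.closedBall (0 : Ren b) 1 = closedConvexHull ℝ
      (Gen (fun ι => (Ren.L b).symm (e ι)) Sp ∪
        (Ren.L b) ⁻¹' (Metric.closedBall (0 : E) (1 / 2))) := by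
    rw [Ren.closedBall_eq, hb, ← hull_preimage, Set.preimage_union, hgen]
  refine ⟨a1, a2, a3, a4, ?_⟩
  have := apep_root (e := fun ι => (Ren.L b).symm (e ι))
    (p := fun ι => (p ι).comp (Ren.L b : Ren b →L[ℝ] E)) a1 hSp0 hSp1 hSp2 hSp3 a2
    (R := (Ren.L b) ⁻¹' (Metric.closedBall (0 : E) (1 / 2))) a3 (M := 1) (fun x hx => by
      have h1 : x ∈ Metric.closedBall (0 : Ren b) 1 := by
        rw [a4]; exact subset_closedConvexHull hx
      exact mem_closedBall_zero_iff.mp h1)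
  rw [a4]
  exact this

/-- the disproof, assembled -/
theorem main : ∃ (X Y : Type) (_ : NormedAddCommGroup X) (_ : NormedSpace ℝ X)
    (_ : CompleteSpace X) (_ : NormedAddCommGroup Y) (_ : NormedSpace ℝ Y) (_ : CompleteSpace Y)
    (x₀ : X) (y₀ : Y), IsAPEP (Metric.closedBall (0 : X) 1) x₀ ∧
      IsAPEP (Metric.closedBall (0 : Y) 1) y₀ ∧
      ¬ IsAPEP (Metric.closedBall (0 : ProjTensor X Y) 1) (tmul x₀ y₀) ∧
      closedConvexHull ℝ {z : ProjTensor X Y | ∃ x ∈ Metric.closedBall (0 : X) 1,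
        ∃ y ∈ Metric.closedBall (0 : Y) 1, z = tmul x y} =
          Metric.closedBall (0 : ProjTensor X Y) 1 := by
  obtain ⟨a1, a2, a3, a4, a5⟩ := apep_ren (e := ee) (p := pp) pp_ee (Sp := VA) VA_root
    (fun s κ hκ => (h_le_VA s κ hκ).1) up_VA (fun ξ => by
      rw [VA_mk, VA_root, VB_root, if_pos (Finset.disjoint_empty_left _)]
      rfl) cs_ee pp_norm bX rfl
  obtain ⟨b1, b2, b3, b4, b5⟩ := apep_ren (E := X0 →L[ℝ] ℝ) (e := pp)
    (p := fun ι => ContinuousLinearMap.apply ℝ ℝ (ee ι)) (fun ι κ => by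
      rw [ContinuousLinearMap.apply_apply, pp_ee]
      simp only [eq_comm]) (Sp := VB) VB_root
    (fun s κ hκ => (h_le_VB s κ hκ).1) up_VB (fun ξ => by
      rw [VB_mk, VA_root, VB_root, if_pos (Finset.disjoint_empty_left _)]
      rfl) cs_pp (fun ι => by
        refine ContinuousLinearMap.opNorm_le_bound _ zero_le_one (fun f => ?_)
        rw [ContinuousLinearMap.apply_apply, one_mul]
        calc ‖f (ee ι)‖ ≤ ‖f‖ * ‖ee ι‖ := f.le_opNorm _
          _ ≤ ‖f‖ * 1 := by gcongr; exact ee_norm ι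
          _ = ‖f‖ := mul_one _) bY rfl
  refine ⟨Ren bX, Ren bY, inferInstance, inferInstance, Ren.complete bX, inferInstance,
    inferInstance, Ren.complete bY, (Ren.L bX).symm (ee root), (Ren.L bY).symm (pp root),
    a5, b5, ?_, ?_⟩
  · rw [← ball_eq_hull]
    have hset : {z : ProjTensor (Ren bX) (Ren bY) | ∃ x : Ren bX, ‖x‖ ≤ 1 ∧ ∃ y : Ren bY,
        ‖y‖ ≤ 1 ∧ z = tmul x y} = {z | ∃ x ∈ Metric.closedBall (0 : Ren bX) 1,
          ∃ y ∈ Metric.closedBall (0 : Ren bY) 1, z = tmul x y} := by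
      ext z
      simp only [Set.mem_ofPred_eq, mem_closedBall_zero_iff]
    rw [hset]
    exact not_apep (e := fun ι => (Ren.L bX).symm (ee ι)) (e' := fun ι => (Ren.L bY).symm (pp ι))
      a1 b1 (T := (ContinuousLinearMap.apply ℝ ℝ : X0 →L[ℝ] (X0 →L[ℝ] ℝ) →L[ℝ] ℝ).bilinearComp
        (Ren.L bX : Ren bX →L[ℝ] X0) (Ren.L bY : Ren bY →L[ℝ] (X0 →L[ℝ] ℝ)))
      (fun ι κ => by
        rw [ContinuousLinearMap.bilinearComp_apply, ContinuousLinearEquiv.coe_coe,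
          ContinuousLinearEquiv.coe_coe, ContinuousLinearEquiv.apply_symm_apply,
          ContinuousLinearEquiv.apply_symm_apply, ContinuousLinearMap.apply_apply, pp_ee])
      a2 b2 a3 b3 a4 b4
  · rw [← ball_eq_hull]
    congr 1
    ext z
    simp only [Set.mem_ofPred_eq, mem_closedBall_zero_iff]

end Pool.Agent.R272.Apep
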