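import Pool.Agent.R272.Apep.Final

set_option autoImplicit false
set_option maxSynthPendingDepth 3

open Metric

namespace Pool.Agent.R272.Apep

section

variable (X Y : Type*) [NormedAddCommGroup X] [NormedSpace ℝ X]
  [NormedAddCommGroup Y] [NormedSpace ℝ Y]

/-- the bilinear map -/
noncomputable def tau : X →L[ℝ] Y →L[ℝ] ProjTensor X Y :=
  LinearMap.mkContinuous₂
    (LinearMap.mk₂ ℝ (fun x y => tmul x y) tmul_add_left tmul_smul_left tmul_add_right
      (fun a x y => tmul_smul_right a x y)) 1 (fun x y => by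
        rw [one_mul]; exact tmul_norm_le x y)

theorem tau_apply (x : X) (y : Y) : tau X Y x y = tmul x y := rfl

theorem isProj_tau : IsProjTensor (tau X Y) := by
  constructor
  · rw [← ball_eq_hull]
    congr 1
    ext z
    constructor
    · rintro ⟨x, y, hx, hy, rfl⟩
      exact ⟨x, hx, y, hy, rfl⟩
    · rintro ⟨x, hx, y, hy, rfl⟩
      exact ⟨x, y, hx, hy, rfl⟩
  · intro S
    exact ⟨tfun S, fun x y => rfl⟩

theorem complete_proj : CompleteSpace (ProjTensor X Y) :=
  (Submodule.isClosed_topologicalClosure (Submodule.span ℝ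
    (Set.range fun p : X × Y => elem p.1 p.2))).completeSpace_coe

end

theorem main2 : ∃ (X Y Z : Type) (_ : NormedAddCommGroup X) (_ : NormedSpace ℝ X)
    (_ : CompleteSpace X) (_ : NormedAddCommGroup Y) (_ : NormedSpace ℝ Y) (_ : CompleteSpace Y)
    (_ : NormedAddCommGroup Z) (_ : NormedSpace ℝ Z) (_ : CompleteSpace Z)
    (τ : X →L[ℝ] Y →L[ℝ] Z) (x₀ : X) (y₀ : Y),
    IsProjTensor τ ∧
    IsAPEP (closedBall (0 : X) 1) x₀ ∧ IsAPEP (closedBall (0 : Y) 1) y₀ ∧
    ¬ IsAPEP (closedBall (0 : Z) 1) (τ x₀ y₀) := by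
  obtain ⟨X, Y, i1, i2, i3, i4, i5, i6, x₀, y₀, h1, h2, h3, -⟩ := main
  exact ⟨X, Y, ProjTensor X Y, i1, i2, i3, i4, i5, i6, inferInstance, inferInstance,
    complete_proj X Y, tau X Y, x₀, y₀, isProj_tau X Y, h1, h2, h3⟩

end Pool.Agent.R272.Apep
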