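import Pool.Agent.R272.Apep.Defs

set_option autoImplicit false
set_option maxSynthPendingDepth 3

namespace Pool.Agent.R272.Apep

variable {X Y : Type*} [NormedAddCommGroup X] [NormedSpace ℝ X]
  [NormedAddCommGroup Y] [NormedSpace ℝ Y]

/-- inclusion into the dual of the space of bilinear forms -/
noncomputable def pinc : ProjTensor X Y →L[ℝ] ((X →L[ℝ] Y →L[ℝ] ℝ) →L[ℝ] ℝ) := (projSub X Y).subtypeL

theorem pinc_injective : Function.Injective (pinc (X := X) (Y := Y)) := Subtype.val_injective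

theorem pinc_norm (z : ProjTensor X Y) : ‖pinc z‖ = ‖z‖ := rfl

theorem pinc_tmul (x : X) (y : Y) (T : X →L[ℝ] Y →L[ℝ] ℝ) : pinc (tmul x y) T = T x y := rfl

/-- the functional on the tensor product given by a bilinear form -/
noncomputable def tfun (T : X →L[ℝ] Y →L[ℝ] ℝ) : ProjTensor X Y →L[ℝ] ℝ :=
  (ContinuousLinearMap.apply ℝ ℝ T).comp pinc

theorem tfun_apply (T : X →L[ℝ] Y →L[ℝ] ℝ) (z : ProjTensor X Y) : tfun T z = pinc z T := rfl

theorem tfun_tmul (T : X →L[ℝ] Y →L[ℝ] ℝ) (x : X) (y : Y) : tfun T (tmul x y) = T x y := rfl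

theorem tmul_add_left (x x' : X) (y : Y) : tmul (x + x') y = tmul x y + tmul x' y := by
  apply pinc_injective
  ext T
  rw [map_add, add_apply, pinc_tmul, pinc_tmul, pinc_tmul, map_add, add_apply]

theorem tmul_add_right (x : X) (y y' : Y) : tmul x (y + y') = tmul x y + tmul x y' := by
  apply pinc_injective
  ext T
  rw [map_add, add_apply, pinc_tmul, pinc_tmul, pinc_tmul, map_add]

theorem tmul_smul_left (a : ℝ) (x : X) (y : Y) : tmul (a • x) y = a • tmul x y := by
  apply pinc_injective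
  ext T
  rw [map_smul, smul_apply, pinc_tmul, pinc_tmul, map_smul, smul_apply]

theorem tmul_smul_right (a : ℝ) (x : X) (y : Y) : tmul x (a • y) = a • tmul x y := by
  apply pinc_injective
  ext T
  rw [map_smul, smul_apply, pinc_tmul, pinc_tmul, map_smul]

theorem tmul_norm_le (x : X) (y : Y) : ‖tmul x y‖ ≤ ‖x‖ * ‖y‖ := by
  rw [← pinc_norm]
  refine ContinuousLinearMap.opNorm_le_bound _ (by positivity) (fun T => ?_)
  rw [pinc_tmul]
  calc ‖T x y‖ ≤ ‖T x‖ * ‖y‖ := (T x).le_opNorm y
    _ ≤ ‖T‖ * ‖x‖ * ‖y‖ := by gcongr; exact T.le_opNorm x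
    _ = ‖x‖ * ‖y‖ * ‖T‖ := by ring

/-- slices of a functional on the tensor product in the first variable -/
noncomputable def sl (φ : ProjTensor X Y →L[ℝ] ℝ) (y : Y) : X →L[ℝ] ℝ :=
  LinearMap.mkContinuous
    { toFun := fun x => φ (tmul x y)
      map_add' := fun x x' => by rw [tmul_add_left, map_add]
      map_smul' := fun a x => by rw [tmul_smul_left, map_smul]; rfl } (‖φ‖ * ‖y‖) (fun x => by
        calc ‖φ (tmul x y)‖ ≤ ‖φ‖ * ‖tmul x y‖ := φ.le_opNorm _
          _ ≤ ‖φ‖ * (‖x‖ * ‖y‖) := by gcongr; exact tmul_norm_le x y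
          _ = ‖φ‖ * ‖y‖ * ‖x‖ := by ring)

theorem sl_apply (φ : ProjTensor X Y →L[ℝ] ℝ) (x : X) (y : Y) : sl φ y x = φ (tmul x y) := rfl

/-- the bilinear form of a functional -/
noncomputable def bil (φ : ProjTensor X Y →L[ℝ] ℝ) : X →L[ℝ] Y →L[ℝ] ℝ :=
  LinearMap.mkContinuous₂
    (LinearMap.mk₂ ℝ (fun x y => φ (tmul x y))
      (fun x x' y => by rw [tmul_add_left, map_add])
      (fun a x y => by rw [tmul_smul_left, map_smul])
      (fun x y y' => by rw [tmul_add_right, map_add])
      (fun a x y => by rw [tmul_smul_right, map_smul])) ‖φ‖ (fun x y => by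
        calc ‖φ (tmul x y)‖ ≤ ‖φ‖ * ‖tmul x y‖ := φ.le_opNorm _
          _ ≤ ‖φ‖ * (‖x‖ * ‖y‖) := by gcongr; exact tmul_norm_le x y
          _ = ‖φ‖ * ‖x‖ * ‖y‖ := by ring)

theorem bil_apply (φ : ProjTensor X Y →L[ℝ] ℝ) (x : X) (y : Y) : bil φ x y = φ (tmul x y) := rfl

/-- every functional on the tensor product is given by a bilinear form -/
theorem eq_tfun (φ : ProjTensor X Y →L[ℝ] ℝ) : φ = tfun (bil φ) := by
  have hcl : IsClosed {z : ProjTensor X Y | φ z = tfun (bil φ) z} :=
    isClosed_eq φ.continuous (tfun (bil φ)).continuous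
  ext z
  have hz : z ∈ closure (Submodule.span ℝ (Set.range fun p : X × Y => tmul p.1 p.2) :
      Set (ProjTensor X Y)) := by
    have hind : Topology.IsInducing (pinc (X := X) (Y := Y)) := Topology.IsInducing.subtypeVal
    rw [hind.closure_eq_preimage_closure_image, Set.mem_preimage]
    have h1 : pinc z ∈ closure (Submodule.span ℝ (Set.range fun p : X × Y => elem p.1 p.2) :
      Set ((X →L[ℝ] Y →L[ℝ] ℝ) →L[ℝ] ℝ)) := z.2
    refine closure_mono ?_ h1
    intro w hw
    have h2 : (Submodule.span ℝ (Set.range fun p : X × Y => tmul p.1 p.2)).map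
        (pinc (X := X) (Y := Y)).toLinearMap =
        Submodule.span ℝ (Set.range fun p : X × Y => elem p.1 p.2) := by
      rw [Submodule.map_span, ← Set.range_comp]
      rfl
    rw [SetLike.mem_coe, ← h2] at hw
    obtain ⟨v, hv, rfl⟩ := hw
    exact ⟨v, hv, rfl⟩
  have hsub : (Submodule.span ℝ (Set.range fun p : X × Y => tmul p.1 p.2) :
      Set (ProjTensor X Y)) ⊆ {z | φ z = tfun (bil φ) z} := by
    intro w hw
    induction hw using Submodule.span_induction with
    | mem x hx => obtain ⟨p, rfl⟩ := hx; rfl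
    | zero => simp
    | add x y _ _ h1 h2 => simp only [Set.mem_ofPred_eq] at *; rw [map_add, map_add, h1, h2]
    | smul a x _ h1 => simp only [Set.mem_ofPred_eq] at *; rw [map_smul, map_smul, h1]
  exact closure_minimal hsub hcl hz

/-- The unit ball of the projective tensor product is the closed convex hull of the elementary
tensors of norm-one factors. -/
theorem ball_eq_hull : closedConvexHull ℝ {z : ProjTensor X Y | ∃ x : X, ‖x‖ ≤ 1 ∧ ∃ y : Y,
    ‖y‖ ≤ 1 ∧ z = tmul x y} = Metric.closedBall (0 : ProjTensor X Y) 1 := by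
  apply Set.Subset.antisymm
  · apply closedConvexHull_min _ (convex_closedBall _ _) Metric.isClosed_closedBall
    rintro z ⟨x, hx, y, hy, rfl⟩
    rw [mem_closedBall_zero_iff]
    calc ‖tmul x y‖ ≤ ‖x‖ * ‖y‖ := tmul_norm_le x y
      _ ≤ 1 * 1 := by gcongr
      _ = 1 := one_mul 1
  · intro z hz
    by_contra hcon
    obtain ⟨φ, u, hu, huz⟩ := geometric_hahn_banach_closed_point
      (convex_closedConvexHull (𝕜 := ℝ)) isClosed_closedConvexHull hcon
    rw [mem_closedBall_zero_iff] at hz
    have hgen : ∀ x : X, ‖x‖ ≤ 1 → ∀ y : Y, ‖y‖ ≤ 1 → φ (tmul x y) < u :=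
      fun x hx y hy => hu _ (subset_closedConvexHull ⟨x, hx, y, hy, rfl⟩)
    have hu0 : 0 ≤ u := by
      have := hgen 0 (by simp) 0 (by simp)
      have h0 : tmul (0 : X) (0 : Y) = 0 := by
        have := tmul_smul_left (0 : ℝ) (0 : X) (0 : Y)
        rwa [zero_smul, zero_smul] at this
      rw [h0, map_zero] at this
      exact this.le
    have hnorm : ‖bil φ‖ ≤ u := by
      refine ContinuousLinearMap.opNorm_le_of_unit_norm hu0 (fun x hx => ?_)
      refine ContinuousLinearMap.opNorm_le_of_unit_norm hu0 (fun y hy => ?_)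
      rw [bil_apply, Real.norm_eq_abs, abs_le]
      constructor
      · have := hgen (-x) (by rw [norm_neg]; exact hx.le) y hy.le
        have h1 : tmul (-x) y = - tmul x y := by
          have := tmul_smul_left (-1 : ℝ) x y
          rwa [neg_one_smul, neg_one_smul] at this
        rw [h1, map_neg] at this
        linarith
      · exact (hgen x hx.le y hy.le).le
    have h1 : φ z ≤ u := by
      rw [eq_tfun φ, tfun_apply]
      calc pinc z (bil φ) ≤ ‖pinc z (bil φ)‖ := Real.le_norm_self _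
        _ ≤ ‖pinc z‖ * ‖bil φ‖ := (pinc z).le_opNorm _
        _ ≤ 1 * u := by
          rw [pinc_norm]
          gcongr
        _ = u := one_mul u
    linarith

end Pool.Agent.R272.Apep
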